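import Pool.Agent.Lib.MP_73474e_al.Aff

set_option autoImplicit false
set_option linter.unusedSectionVars false

open Matrix Pool.Agent.Lib.MP_73474e_al

namespace Pool.Agent.Results.MP_73474e_al.AllRanks

/-! ## Definitions used in the statement -/

/-- the Nielsen move `a_i ↦ a_j a_i`, fixing all other basis elements of the free group -/
noncomputable def nielsen {n : ℕ} (i j : Fin n) (h : i ≠ j) : MulAut (FreeGroup (Fin n)) :=
  MonoidHom.toMulEquiv
    (FreeGroup.lift (fun k => if k = i then FreeGroup.of j * FreeGroup.of i else FreeGroup.of k))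
    (FreeGroup.lift
      (fun k => if k = i then (FreeGroup.of j)⁻¹ * FreeGroup.of i else FreeGroup.of k))
    (by
      apply FreeGroup.ext_hom
      intro k
      by_cases hk : k = i
      · subst hk; simp [h.symm]
      · simp [hk])
    (by
      apply FreeGroup.ext_hom
      intro k
      by_cases hk : k = i
      · subst hk; simp [h.symm]
      · simp [hk])

/-- `Q(n,m)`: the quotient of `Aut(F_n)` by the normal closure of the `m`-th power of the Nielsen
move `λ : a_1 ↦ a_2 a_1` -/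
abbrev Q (n : ℕ) (hn : 2 ≤ n) (m : ℕ) : Type :=
  MulAut (FreeGroup (Fin n)) ⧸ Subgroup.normalClosure
    ({nielsen (⟨0, by omega⟩ : Fin n) ⟨1, by omega⟩ (by simp) ^ m} :
      Set (MulAut (FreeGroup (Fin n))))

/-- infinitely many pairwise non-isomorphic finite quotient groups -/
def InfinitelyManyFiniteQuotients (H : Type) [Group H] : Prop :=
  ∃ (A : ℕ → Type) (_ : ∀ i, Group (A i)), (∀ i, Finite (A i)) ∧
    (∀ i, ∃ f : H →* A i, Function.Surjective f) ∧ ∀ i j, i ≠ j → IsEmpty (A i ≃* A j)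

/-! ## The word `w` -/

section word

variable {p s : ℕ} [hp : Fact p.Prime] {q n : ℕ} (hn : n ≤ p ^ s) (i0 i1 : Fin n) (h01 : i0 ≠ i1)

/-- the word `w = [x0^K, x1]` -/
noncomputable def w (p s : ℕ) {n : ℕ} (i0 i1 : Fin n) : FreeGroup (Fin n) :=
  FreeGroup.of i0 ^ (p ^ s) * FreeGroup.of i1 * (FreeGroup.of i0 ^ (p ^ s))⁻¹ *
    (FreeGroup.of i1)⁻¹

theorem fq_zero_K {r : ZMod p} (hr' : (rho hn (FreeGroup.of i0) : U p s) ^ (p ^ s) = zt r)
    (a : ZMod p) (t : ZMod q) :
    (fq q hn i0 (FreeGroup.of i0) ^ (p ^ s)) (zt a, t) = (zt (r + a), t + phi q (zt a : U p s)) := by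
  rw [fq_zero_pow, hr', ← zt_add]
  congr 2
  rw [Finset.sum_eq_single 0]
  · rw [pow_zero, one_mul]
  · intro j hj hj0
    refine phi_other _ (fun b h => ?_)
    refine rho_zero_pow (p := p) (s := s) hn i0 j (Nat.pos_of_ne_zero hj0)
      (Finset.mem_range.mp hj) (b - a) ?_
    have e : (zt b : U p s) = zt (b - a) * zt a := by rw [← zt_add, sub_add_cancel]
    rw [e] at h
    exact mul_right_cancel h
  · intro h
    exact absurd (Finset.mem_range.mpr (pow_pos hp.out.pos s)) h

include h01 in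
theorem fq_zero_K' (hs : 0 < s) {r : ZMod p}
    (hr' : (rho hn (FreeGroup.of i0) : U p s) ^ (p ^ s) = zt r) (a : ZMod p) (t : ZMod q) :
    (fq q hn i0 (FreeGroup.of i0) ^ (p ^ s)) (zt a * (rho hn (FreeGroup.of i1))⁻¹, t) =
      (zt (r + a) * (rho hn (FreeGroup.of i1))⁻¹, t) := by
  rw [fq_zero_pow, hr', ← mul_assoc, ← zt_add, Finset.sum_eq_zero, add_zero]
  intro j _
  refine phi_other _ (fun b h => ?_)
  refine rho_indep (p := p) (s := s) hn i0 i1 h01 hs j (b - a) ?_
  have e : (zt b : U p s) = zt (b - a) * zt a := by rw [← zt_add, sub_add_cancel]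
  have hc := (rho_T (p := p) (s := s) hn (FreeGroup.of i1)).zt_comm a
  rw [e, ← mul_assoc] at h
  have h2 := mul_inv_eq_iff_eq_mul.mp h
  rw [mul_assoc, hc, ← mul_assoc] at h2
  exact mul_right_cancel h2

include h01 in
theorem fq_w (hs : 0 < s) {r : ZMod p}
    (hr' : (rho hn (FreeGroup.of i0) : U p s) ^ (p ^ s) = zt r) (a : ZMod p) (t : ZMod q) :
    fq q hn i0 (w p s i0 i1) (zt a, t) = (zt a, t + phi q (zt (a - r) : U p s)) := by
  have e : fq q hn i0 (w p s i0 i1) = fq q hn i0 (FreeGroup.of i0) ^ (p ^ s) *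
      fq q hn i0 (FreeGroup.of i1) * (fq q hn i0 (FreeGroup.of i0) ^ (p ^ s))⁻¹ *
      (fq q hn i0 (FreeGroup.of i1))⁻¹ := by
    simp [w]
  have hc := (rho_T (p := p) (s := s) hn (FreeGroup.of i1)).zt_comm
  have e1 : (fq q hn i0 (FreeGroup.of i1))⁻¹ (zt a, t) =
      (zt a * (rho hn (FreeGroup.of i1))⁻¹, t) := by
    rw [Equiv.Perm.inv_eq_iff_eq, fq_one hn i0 i1 h01, ← mul_assoc, ← hc, mul_assoc, mul_inv_cancel,
      mul_one]
  have e2 : (fq q hn i0 (FreeGroup.of i0) ^ (p ^ s))⁻¹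
      (zt a * (rho hn (FreeGroup.of i1))⁻¹, t) =
      (zt (a - r) * (rho hn (FreeGroup.of i1))⁻¹, t) := by
    rw [Equiv.Perm.inv_eq_iff_eq, fq_zero_K' hn i0 i1 h01 hs hr', add_sub_cancel]
  rw [e, Equiv.Perm.mul_apply, Equiv.Perm.mul_apply, Equiv.Perm.mul_apply, e1, e2,
    fq_one hn i0 i1 h01, ← mul_assoc, ← hc, mul_assoc, mul_inv_cancel, mul_one,
    fq_zero_K hn i0 hr', add_sub_cancel]

include h01 in
theorem fq_w_pow (hs : 0 < s) {r : ZMod p}
    (hr' : (rho hn (FreeGroup.of i0) : U p s) ^ (p ^ s) = zt r) (k : ℕ) (a : ZMod p) (t : ZMod q) :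
    (fq q hn i0 (w p s i0 i1) ^ k) (zt a, t) =
      (zt a, t + (k : ZMod q) * phi q (zt (a - r) : U p s)) := by
  induction k with
  | zero => simp
  | succ k ih =>
    rw [pow_succ', Equiv.Perm.mul_apply, ih, fq_w hn i0 i1 h01 hs hr', add_assoc]
    congr 2
    push_cast
    ring

include h01 in
theorem dvd_of_comm (hs : 0 < s) (k : ℕ)
    (h : fq (p := p) (s := s) q hn i0 (w p s i0 i1 ^ k) * fq q hn i0 (FreeGroup.of i0) =
      fq q hn i0 (FreeGroup.of i0) * fq q hn i0 (w p s i0 i1 ^ k)) :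
    q ∣ 2 * k := by
  obtain ⟨r, hr, hr'⟩ := rho_pow (p := p) (s := s) hn i0 1
  rw [MulAut.one_apply] at hr'
  have h4 : Commute (fq (p := p) (s := s) q hn i0 (w p s i0 i1) ^ k)
      (fq q hn i0 (FreeGroup.of i0) ^ (p ^ s)) := by
    rw [map_pow] at h
    exact (show Commute (fq (p := p) (s := s) q hn i0 (w p s i0 i1) ^ k)
      (fq q hn i0 (FreeGroup.of i0)) from h).pow_right _
  have h5 := congrArg (fun π : G p s q => π (zt 0, 0)) h4.eq
  simp only [Equiv.Perm.mul_apply] at h5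
  rw [fq_zero_K hn i0 hr', fq_w_pow hn i0 i1 h01 hs hr', fq_w_pow hn i0 i1 h01 hs hr',
    fq_zero_K hn i0 hr', add_zero, sub_self, zero_sub, zero_add, zero_add] at h5
  have h6 : phi q (zt 0 : U p s) + (k : ZMod q) * phi q (zt 0 : U p s) =
      (k : ZMod q) * phi q (zt (-r) : U p s) + phi q (zt 0 : U p s) := congrArg Prod.snd h5
  rw [phi_zero] at h6
  have h7 : ((2 * k : ℕ) : ZMod q) = 0 := by
    push_cast
    rcases phi_ne (s := s) (q := q) (neg_ne_zero.mpr hr) with h8 | h8
    · rw [h8] at h6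
      linear_combination 2 * h6
    · rw [h8] at h6
      linear_combination h6
  exact (ZMod.natCast_eq_zero_iff _ _).mp h7

end word

/-! ## The finite quotients -/

section quot

variable (p s : ℕ) [hp : Fact p.Prime] (q : ℕ) {n : ℕ} (i0 i1 : Fin n) (h01 : i0 ≠ i1)

/-- homomorphisms killing the `p^(s+1)`-th powers of all primitive elements -/
def X : Type := {f : FreeGroup (Fin n) →* G p s q //
  ∀ α : MulAut (FreeGroup (Fin n)), f (α (FreeGroup.of i1)) ^ (p ^ (s + 1)) = 1}

theorem finite_X [NeZero q] : Finite (X p s q i1) := by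
  have : Finite (FreeGroup (Fin n) →* G p s q) :=
    Finite.of_equiv _ (FreeGroup.lift (α := Fin n) (β := G p s q))
  unfold X
  infer_instance

noncomputable instance : MulAction (MulAut (FreeGroup (Fin n))) (X p s q i1) where
  smul α f := ⟨f.1.comp (α⁻¹ : MulAut (FreeGroup (Fin n))).toMonoidHom, fun β => by
    have := f.2 (α⁻¹ * β)
    simpa using this⟩
  one_smul f := by
    apply Subtype.ext
    apply MonoidHom.ext
    intro x
    rfl
  mul_smul α β f := by
    apply Subtype.ext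
    apply MonoidHom.ext
    intro x
    rfl

variable {p s q i0 i1}

theorem smul_apply (α : MulAut (FreeGroup (Fin n))) (f : X p s q i1) (x : FreeGroup (Fin n)) :
    (α • f).1 x = f.1 (α⁻¹ x) := rfl

theorem nielsen_of (h : i0 ≠ i1) (i : Fin n) : nielsen i0 i1 h (FreeGroup.of i) =
    if i = i0 then FreeGroup.of i1 * FreeGroup.of i0 else FreeGroup.of i := by
  simp [nielsen]

theorem nielsen_pow (h : i0 ≠ i1) (k : ℕ) (i : Fin n) : (nielsen i0 i1 h ^ k) (FreeGroup.of i) =
    if i = i0 then (FreeGroup.of i1) ^ k * FreeGroup.of i0 else FreeGroup.of i := by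
  induction k with
  | zero => by_cases hi : i = i0 <;> simp [hi]
  | succ k ih =>
    rw [pow_succ', MulAut.mul_apply, ih]
    by_cases hi : i = i0
    · rw [if_pos hi, if_pos hi, map_mul, map_pow, nielsen_of, nielsen_of, if_neg h.symm,
        if_pos rfl, ← mul_assoc, ← pow_succ]
    · rw [if_neg hi, if_neg hi, nielsen_of, if_neg hi]

theorem nielsen_smul (h : i0 ≠ i1) (m : ℕ) (hm : p ^ (s + 1) ∣ m) (f : X p s q i1) :
    (nielsen i0 i1 h ^ m) • f = f := by
  have h : (nielsen i0 i1 h ^ m)⁻¹ • f = f := by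
    apply Subtype.ext
    apply FreeGroup.ext_hom
    intro i
    rw [smul_apply, inv_inv, nielsen_pow]
    by_cases hi : i = i0
    · rw [if_pos hi, map_mul, map_pow]
      have := f.2 1
      rw [MulAut.one_apply] at this
      obtain ⟨d, rfl⟩ := hm
      rw [pow_mul, this, one_pow, one_mul, hi]
    · rw [if_neg hi]
  exact (inv_smul_eq_iff.mp h).symm

variable (p s q) in
/-- the action of the quotient on the finite set `X` -/
noncomputable def Phi (h : i0 ≠ i1) (m : ℕ) (hm : p ^ (s + 1) ∣ m) :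
    MulAut (FreeGroup (Fin n)) ⧸ Subgroup.normalClosure
      ({nielsen i0 i1 h ^ m} : Set (MulAut (FreeGroup (Fin n)))) →* Equiv.Perm (X p s q i1) :=
  QuotientGroup.lift _ (MulAction.toPermHom (MulAut (FreeGroup (Fin n))) (X p s q i1)) (by
    intro a ha
    have : Subgroup.normalClosure
      ({nielsen i0 i1 h ^ m} : Set (MulAut (FreeGroup (Fin n)))) ≤
        (MulAction.toPermHom (MulAut (FreeGroup (Fin n))) (X p s q i1)).ker := by
      apply Subgroup.normalClosure_le_normal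
      rintro _ rfl
      rw [SetLike.mem_coe, MonoidHom.mem_ker]
      ext1 f
      exact nielsen_smul h m hm f
    exact this ha)

theorem main_bound (hn : n ≤ p ^ s) (hs : 0 < s) (h : i0 ≠ i1) (m : ℕ) (hm : p ^ (s + 1) ∣ m)
    (k : ℕ)
    (hk : (QuotientGroup.mk (MulAut.conj (w p s i0 i1)) : MulAut (FreeGroup (Fin n)) ⧸
      Subgroup.normalClosure ({nielsen i0 i1 h ^ m} : Set (MulAut (FreeGroup (Fin n))))) ^ k ∈
        (Phi p s q h m hm).ker) :
    q ∣ 2 * k := by
  apply dvd_of_comm (p := p) (s := s) hn i0 i1 h hs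
  rw [MonoidHom.mem_ker, ← QuotientGroup.mk_pow] at hk
  let f0 : X p s q i1 := ⟨fq q hn i0, fq_prim hn i0 i1⟩
  have h1 : (MulAut.conj (w p s i0 i1)) ^ k • f0 = f0 :=
    congrArg (fun π : Equiv.Perm (X p s q i1) => π f0) hk
  rw [← map_pow] at h1
  have h2 : f0 = (MulAut.conj (w p s i0 i1 ^ k))⁻¹ • f0 := (inv_smul_eq_iff.mpr h1.symm).symm
  have h3 : fq q hn i0 (FreeGroup.of i0) =
      fq q hn i0 ((MulAut.conj (w p s i0 i1 ^ k))⁻¹⁻¹ (FreeGroup.of i0)) :=
    congrArg (fun f : X p s q i1 => f.1 (FreeGroup.of i0)) h2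
  rw [inv_inv, MulAut.conj_apply, map_mul, map_mul, map_inv] at h3
  rw [eq_mul_inv_iff_mul_eq] at h3
  exact h3.symm

end quot

theorem of_unbounded (H : Type) [Group H]
    (h : ∀ B : ℕ, ∃ N : Subgroup H, N.Normal ∧ N.FiniteIndex ∧ B < N.index) :
    InfinitelyManyFiniteQuotients H := by
  obtain ⟨φ, hφ, hφ'⟩ := Nat.exists_strictMono_subsequence
    (P := fun c => ∃ N : Subgroup H, N.Normal ∧ N.FiniteIndex ∧ N.index = c) (by
      intro B
      obtain ⟨N, h1, h2, h3⟩ := h B
      exact ⟨N.index, h3, N, h1, h2, rfl⟩)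
  choose N h1 h2 h3 using hφ'
  refine ⟨fun i => H ⧸ N i, fun i => QuotientGroup.Quotient.group (N i), ?_, ?_, ?_⟩
  · intro i
    exact Subgroup.finite_quotient_of_finiteIndex
  · intro i
    exact ⟨QuotientGroup.mk' (N i), QuotientGroup.mk'_surjective (N i)⟩
  · intro i j hij
    refine ⟨fun e => hij (hφ.injective ?_)⟩
    rw [← h3 i, ← h3 j]
    exact Nat.card_congr e.toEquiv

/-- Let `p` be a prime, `2 ≤ n ≤ p ^ s`, and let `m` be a multiple of `p ^ (s + 1)`.  Then
`Q(n,m)` has infinitely many pairwise non-isomorphic finite quotients; moreover, for every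
`q ≥ 1` it has a finite quotient with an element whose order is divisible by `q`. -/
theorem result (p s n m : ℕ) (hp : p.Prime) (hn : 2 ≤ n) (hns : n ≤ p ^ s)
    (hm : p ^ (s + 1) ∣ m) :
    InfinitelyManyFiniteQuotients (Q n hn m) ∧
      ∀ q : ℕ, 0 < q → ∃ (A : Type) (_ : Group A) (_ : Finite A) (f : Q n hn m →* A) (a : A),
        Function.Surjective f ∧ q ∣ orderOf a := by
  have : Fact p.Prime := ⟨hp⟩
  have hs : 0 < s := by
    rcases Nat.eq_zero_or_pos s with rfl | h
    · rw [pow_zero] at hns; omega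
    · exact h
  have key : ∀ q : ℕ, 0 < q → ∃ N : Subgroup (Q n hn m), ∃ _ : N.Normal, N.FiniteIndex ∧
      ∃ a : Q n hn m ⧸ N, q ∣ orderOf a := by
    intro q hq
    have hq : NeZero (2 * q) := ⟨by omega⟩
    have h01 : (⟨0, by omega⟩ : Fin n) ≠ ⟨1, by omega⟩ := by simp
    have hX := finite_X p s (2 * q) (⟨1, by omega⟩ : Fin n)
    refine ⟨(Phi p s (2 * q) h01 m hm).ker, inferInstance, Subgroup.finiteIndex_ker _,
      QuotientGroup.mk (QuotientGroup.mk (MulAut.conj (w p s ⟨0, by omega⟩ ⟨1, by omega⟩))), ?_⟩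
    have h1 := pow_orderOf_eq_one (QuotientGroup.mk (s := (Phi p s (2 * q) h01 m hm).ker)
      (QuotientGroup.mk (MulAut.conj (w p s (⟨0, by omega⟩ : Fin n) ⟨1, by omega⟩))))
    rw [← QuotientGroup.mk_pow, QuotientGroup.eq_one_iff] at h1
    exact Nat.dvd_of_mul_dvd_mul_left (by norm_num) (main_bound hns hs h01 m hm _ h1)
  constructor
  · apply of_unbounded
    intro B
    obtain ⟨N, h1, h2, a, ha⟩ := key (B + 1) (by omega)
    refine ⟨N, h1, h2, ?_⟩
    have hfin : Finite (Q n hn m ⧸ N) := Subgroup.finite_quotient_of_finiteIndex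
    have h3 := Nat.le_of_dvd Nat.card_pos (ha.trans (orderOf_dvd_natCard a))
    rw [Subgroup.index]
    omega
  · intro q hq
    obtain ⟨N, h1, h2, a, ha⟩ := key q hq
    exact ⟨Q n hn m ⧸ N, inferInstance, Subgroup.finite_quotient_of_finiteIndex,
      QuotientGroup.mk' N, a, QuotientGroup.mk'_surjective N, ha⟩

end Pool.Agent.Results.MP_73474e_al.AllRanks
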